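import Mathlib
import Pool.Agent.H68.Hil.Sullivan
import Pool.Agent.H91.Hil.Statement
import Pool.Agent.H91.Hil.Cnt
import Pool.Agent.H91.Hil.LamBase

/-! For every minimal Sullivan algebra `(ΛV, d)` with finite-dimensional cohomology,
`dim H(ΛV, d) ≥ dim V^odd + dim ker (d | V)`. -/

open Pool.Agent.H68.Sullivan Pool.Agent.H91.HilStatement in
/-- Let `(ΛV, d)` be a minimal Sullivan algebra over a field `K` of characteristic zero, `V` having
`q` generators of even degree and `m` generators of odd degree, all of degree at least `2`. If the
cohomology `H(ΛV, d)` is finite dimensional, then its dimension is at least `m + s`, where `s` is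
the dimension of the space of the elements `v` of `V` with `d v = 0`; so it is at least
`q + m = dim V` if `q ≤ s`. -/
theorem Pool.Agent.H91.Kept.hurewicz_bound
    (K : Type*) [Field K] [CharZero K] (q m : ℕ) (deg : Fin q ⊕ Fin m → ℕ)
    (d : Lam K q m →ₗ[K] Lam K q m) (hd : IsMin deg d) (hfin : FiniteDimensional K (Coh d)) :
    m + Module.finrank K (LinearMap.ker d ⊓ Submodule.span K (Set.range (gen K q m)) :
      Submodule K (Lam K q m)) ≤ Module.finrank K (Coh d) := by
  obtain ⟨B, hB, hV, hm⟩ := Pool.Agent.H91.Hil.LamBase.exists_base deg d hd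
  subst hB
  have h := Pool.Agent.H91.Hil.main B hfin
  rw [hm, hV] at h
  exact h
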